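import Mathlib
import Pool.Agent.Helper581_FO.Defs
import Pool.Agent.Helper581_FO.Proof

/-!
# A plane curve without separated multiples has only finitely many finite orbits

Let `K` be an algebraically closed field of characteristic `0` and let `p ∈ K[x,y]` be irreducible,
`p ∉ K[x]`, `p ∉ K[y]`. If the field `F(p)` of separated multiples is trivial, then the curve
`C ⊂ ℙ¹ × ℙ¹` has only finitely many finite orbits.

Idea: all but finitely many orbits avoid `∞`, the zeros of the two leading coefficients and the
branch points of the two projections. If `O₁ ≠ O₂` are two such orbits which are finite, with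
coordinate sets `A₁, B₁` and `A₂, B₂`, then `O_i` is the full fibre of `A_i` and of `B_i`, hence
`(∏_{A₁} (x - a) / ∏_{B₁} (y - b)) ^ |O₂| * (∏_{B₂} (y - b) / ∏_{A₂} (x - a)) ^ |O₁|` has value `1`
at all valuations of the function field of `C`. So it is constant, which gives a non-constant
element of `F(p)`.
-/

set_option autoImplicit false

open Polynomial Polynomial.Bivariate

namespace Pool.Agent.Results.MP_f5f7dd_ag.FinitelyManyFiniteOrbits

open Pool.Agent.Helper581_FO

theorem result {K : Type*} [Field K] [IsAlgClosed K] [CharZero K] (p : K[X][Y])
    (hp : Irreducible p) (hx : ∀ f : K[X], p ≠ C f) (hy : ∀ g : K[X], p ≠ g.map C)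
    (hF : TrivialField p) :
    {O : Set (OnePoint K × OnePoint K) | ∃ P ∈ Curve p, O = orbit p P ∧ O.Finite}.Finite :=
  finite_orbits p hp hx hy hF

end Pool.Agent.Results.MP_f5f7dd_ag.FinitelyManyFiniteOrbits
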